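import Pool.Agent.U481.HW.Stm2

/-!
# Project HW, package STEPQ (helper402): one step of the sparse domination, for the smooth truncations
-/

set_option autoImplicit false

open MeasureTheory Filter Topology Set
open scoped ENNReal NNReal

namespace Pool.Agent.U402.HW.STEPQ

open Pool.Dav Pool.Agent.U481.HW

/-- the kernel -/
noncomputable def kq (δ x t : ℝ) : ℂ := ((Real.pi⁻¹ * ((x - t) / ((x - t) ^ 2 + δ ^ 2)) : ℝ) : ℂ)

theorem kq_cont (δ : ℝ) (hδ : 0 < δ) (x : ℝ) : Continuous (kq δ x) := by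
  unfold kq
  refine Complex.continuous_ofReal.comp (continuous_const.mul (Continuous.div (by fun_prop) (by fun_prop) ?_))
  intro t; positivity

theorem kq_bound (δ : ℝ) (hδ : 0 < δ) (x t : ℝ) : ‖kq δ x t‖ ≤ Real.pi⁻¹ * (1 / δ) := by
  unfold kq
  rw [Complex.norm_real, Real.norm_eq_abs, abs_mul, abs_of_pos (inv_pos.2 Real.pi_pos)]
  refine mul_le_mul_of_nonneg_left ?_ (inv_pos.2 Real.pi_pos).le
  rw [abs_div, abs_of_pos (by positivity : 0 < (x - t) ^ 2 + δ ^ 2), div_le_div_iff₀ (by positivity) hδ]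
  nlinarith [sq_abs (x - t), sq_nonneg (|x - t| - δ), sq_nonneg (|x - t| + δ), abs_nonneg (x - t)]

theorem int_kq {f : ℝ → ℂ} (hf : Integrable f) (δ : ℝ) (hδ : 0 < δ) (x : ℝ) :
    Integrable (fun t => kq δ x t * f t) :=
  hf.bdd_mul (kq_cont δ hδ x).aestronglyMeasurable (ae_of_all _ (kq_bound δ hδ x))

theorem QQ_add {f g : ℝ → ℂ} (hf : Integrable f) (hg : Integrable g) (δ : ℝ) (hδ : 0 < δ) (x : ℝ) :
    QQ (fun y => f y + g y) δ x = QQ f δ x + QQ g δ x := by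
  have h := integral_add (int_kq hf δ hδ x) (int_kq hg δ hδ x)
  have h2 : QQ (fun y => f y + g y) δ x = ∫ t, (kq δ x t * f t + kq δ x t * g t) := by
    unfold QQ
    refine integral_congr_ae (ae_of_all _ fun t => ?_)
    exact mul_add _ _ _
  rw [h2, h]
  rfl

theorem QQ_zero {f : ℝ → ℂ} (hf : f =ᵐ[volume] 0) (δ x : ℝ) : QQ f δ x = 0 := by
  unfold QQ
  rw [integral_congr_ae (g := fun _ => (0 : ℂ))]
  · simp
  · filter_upwards [hf] with t ht
    simp [ht]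

theorem MM_congr {f f' : ℝ → ℝ≥0∞} (h : f =ᵐ[volume] f') : MM volume f = MM volume f' := by
  funext x
  unfold MM
  simp_rw [lintegral_congr_ae (ae_restrict_of_ae h)]

theorem MM_mono {f f' : ℝ → ℝ≥0∞} (h : ∀ y, f y ≤ f' y) (x : ℝ) : MM volume f x ≤ MM volume f' x := by
  unfold MM
  refine iSup_mono fun a => iSup_mono fun b => iSup_mono fun _ => ?_
  exact ENNReal.div_le_div_right (lintegral_mono h) _

theorem le_MM {f : ℝ → ℝ≥0∞} {a b x : ℝ} (h1 : a < x) (h2 : x < b) :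
    (∫⁻ y in Ioo a b, f y) / volume (Ioo a b) ≤ MM volume f x := by
  unfold MM
  exact le_iSup_of_le a (le_iSup_of_le b (le_iSup_of_le ⟨h1, h2⟩ le_rfl))

theorem vol_DD (q : ℤ × ℤ) : volume (DD q) = ENNReal.ofReal (2 ^ q.1) := by
  unfold DD
  rw [Real.volume_Ico]
  congr 1
  ring

theorem vol_D3 (q : ℤ × ℤ) : volume (D3 q) = 3 * volume (DD q) := by
  rw [vol_DD]
  unfold D3
  rw [Real.volume_Ico, show ((3 : ℝ≥0∞)) = ENNReal.ofReal 3 by simp, ← ENNReal.ofReal_mul (by norm_num)]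
  congr 1
  ring

theorem DD_ne_zero (q : ℤ × ℤ) : volume (DD q) ≠ 0 := by
  rw [vol_DD]
  have : (0 : ℝ) < 2 ^ q.1 := by positivity
  simpa using this

theorem DD_ne_top (q : ℤ × ℤ) : volume (DD q) ≠ ⊤ := by
  rw [vol_DD]; exact ENNReal.ofReal_ne_top

theorem lint_lo (f : ℝ → ℂ) (r : ℤ × ℤ) : ∫⁻ y, ‖lo f r y‖ₑ = ∫⁻ y in D3 r, ‖f y‖ₑ := by
  have hm : MeasurableSet (D3 r) := measurableSet_Ico
  rw [← lintegral_indicator hm]
  refine lintegral_congr fun y => ?_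
  unfold lo
  rw [enorm_indicator_eq_indicator_enorm]

theorem lint_lo_av (f : ℝ → ℂ) (r : ℤ × ℤ) : ∫⁻ y, ‖lo f r y‖ₑ = av f r * (3 * volume (DD r)) := by
  rw [lint_lo, ← vol_D3]
  unfold av
  rw [ENNReal.div_mul_cancel]
  · rw [vol_D3]; exact mul_ne_zero (by norm_num) (DD_ne_zero r)
  · rw [vol_D3]; exact ENNReal.mul_ne_top (by norm_num) (DD_ne_top r)

theorem int_lo {f : ℝ → ℂ} (hf : Integrable f) (r : ℤ × ℤ) : Integrable (lo f r) :=
  hf.indicator measurableSet_Ico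

theorem mem_D3 {r : ℤ × ℤ} {x : ℝ} (hx : x ∈ DD r) :
    ((r.2 : ℝ) - 1) * 2 ^ r.1 < x ∧ x < ((r.2 : ℝ) + 2) * 2 ^ r.1 := by
  have h0 : (0 : ℝ) < 2 ^ r.1 := by positivity
  obtain ⟨h1, h2⟩ := hx
  constructor <;> nlinarith

/-- cancelling the average and the constant -/
theorem cancel {L A m c I Q D : ℝ≥0∞} (hA0 : A ≠ 0) (hAt : A ≠ ⊤) (hD0 : D ≠ 0) (hDt : D ≠ ⊤)
    (hL : L = 192 * D) (hc : c ≤ D) (hI : I = A * (3 * Q)) (h : (L * A) * m ≤ c * I) : 64 * m ≤ Q := by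
  have h1 : A * (D * (3 * (64 * m))) ≤ A * (D * (3 * Q)) := by
    calc A * (D * (3 * (64 * m))) = (L * A) * m := by rw [hL]; ring
      _ ≤ c * I := h
      _ ≤ D * (A * (3 * Q)) := by rw [hI]; gcongr
      _ = A * (D * (3 * Q)) := by ring
  have h2 := (ENNReal.mul_le_mul_iff_right hA0 hAt).1 h1
  have h3 := (ENNReal.mul_le_mul_iff_right hD0 hDt).1 h2
  exact (ENNReal.mul_le_mul_iff_right (by norm_num) (by norm_num)).1 h3

theorem cancel2 {L A m c I Q D : ℝ≥0∞} (hA0 : A ≠ 0) (hAt : A ≠ ⊤) (hD0 : D ≠ 0) (hDt : D ≠ ⊤)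
    (hL0 : L ≠ 0) (hLt : L ≠ ⊤) (hc : c ≤ D) (hI : I ≤ (L * A) * (3 * Q))
    (h : (12 * D * L * A) * m ≤ c * I) : 4 * m ≤ Q := by
  have h1 : A * (D * (L * (3 * (4 * m)))) ≤ A * (D * (L * (3 * Q))) := by
    calc A * (D * (L * (3 * (4 * m)))) = (12 * D * L * A) * m := by ring
      _ ≤ c * I := h
      _ ≤ D * ((L * A) * (3 * Q)) := by gcongr
      _ = A * (D * (L * (3 * Q))) := by ring
  have h2 := (ENNReal.mul_le_mul_iff_right hA0 hAt).1 h1
  have h3 := (ENNReal.mul_le_mul_iff_right hD0 hDt).1 h2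
  have h4 := (ENNReal.mul_le_mul_iff_right hL0 hLt).1 h3
  exact (ENNReal.mul_le_mul_iff_right (by norm_num) (by norm_num)).1 h4

/-- a point outside two small sets -/
theorem exists_pt {r : ℤ × ℤ} {E T : Set ℝ} (h1 : 2 * volume (DD r ∩ E) ≤ volume (DD r))
    (h2 : 4 * volume T ≤ volume (DD r)) : ∃ x ∈ DD r, x ∉ E ∧ x ∉ T := by
  by_contra hcon
  push Not at hcon
  have hsub : DD r ⊆ (DD r ∩ E) ∪ T := by
    intro x hx
    by_cases hE : x ∈ E
    · exact Or.inl ⟨hx, hE⟩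
    · exact Or.inr (hcon x hx hE)
  have h3 : volume (DD r) ≤ volume (DD r ∩ E) + volume T := (measure_mono hsub).trans (measure_union_le _ _)
  have h0 := DD_ne_zero r
  have ht := DD_ne_top r
  generalize volume (DD r) = R at *
  generalize volume (DD r ∩ E) = a at *
  generalize volume T = b at *
  have ha : a ≠ ⊤ := by
    intro h; rw [h] at h1; simp at h1; exact ht h1
  have hb : b ≠ ⊤ := by
    intro h; rw [h] at h2; simp at h2; exact ht h2
  lift R to ℝ≥0 using ht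
  lift a to ℝ≥0 using ha
  lift b to ℝ≥0 using hb
  norm_cast at h0 h1 h2 h3
  have h1' : 2 * (a : ℝ) ≤ R := by exact_mod_cast h1
  have h2' : 4 * (b : ℝ) ≤ R := by exact_mod_cast h2
  have h3' : (R : ℝ) ≤ a + b := by exact_mod_cast h3
  have h0' : 0 < (R : ℝ) := by
    have : 0 < R := pos_iff_ne_zero.2 h0
    exact_mod_cast this
  linarith

theorem main : S_weak → S_whilQ → S_kernelQ → S_stop → S_stepQ := by
  rintro hweak ⟨C1, hC1, hw⟩ ⟨C2, hC2, hk⟩ hstop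
  obtain ⟨D, hD⟩ : ∃ D : ℝ≥0∞, D = C1 + 1 := ⟨_, rfl⟩
  have hD0 : D ≠ 0 := by rw [hD]; simp
  have hDt : D ≠ ⊤ := by rw [hD]; exact ENNReal.add_ne_top.2 ⟨hC1.ne, ENNReal.one_ne_top⟩
  have hC1D : C1 ≤ D := by rw [hD]; exact le_self_add
  have h1D : 1 ≤ D := by rw [hD]; exact le_add_self
  obtain ⟨L, hL⟩ : ∃ L : ℝ≥0∞, L = 192 * D := ⟨_, rfl⟩
  have hL0 : L ≠ 0 := by rw [hL]; exact mul_ne_zero (by norm_num) hD0
  have hLt : L ≠ ⊤ := by rw [hL]; exact ENNReal.mul_ne_top (by norm_num) hDt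
  refine ⟨L + (L + 12 * D * L + C2 * L), ?_, fun δ hδ f hf q => ?_⟩
  · refine ENNReal.add_lt_top.2 ⟨hLt.lt_top, ENNReal.add_lt_top.2 ⟨ENNReal.add_lt_top.2 ⟨hLt.lt_top, ?_⟩, ?_⟩⟩
    · exact (ENNReal.mul_ne_top (ENNReal.mul_ne_top (by norm_num) hDt) hLt).lt_top
    · exact (ENNReal.mul_ne_top hC2.ne hLt).lt_top
  obtain ⟨g, hgdef⟩ : ∃ g : ℝ → ℂ, g = lo f q := ⟨_, rfl⟩
  have hg : Integrable g := by rw [hgdef]; exact int_lo hf q
  obtain ⟨A, hAdef⟩ : ∃ A : ℝ≥0∞, A = av f q := ⟨_, rfl⟩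
  have hI : ∫⁻ y, ‖g y‖ₑ = A * (3 * volume (DD q)) := by rw [hgdef, hAdef]; exact lint_lo_av f q
  rw [← hgdef, ← hAdef]
  by_cases hA0 : A = 0
  · refine ⟨∅, by simp, by simp, by simp, ?_, by simp⟩
    have hz : g =ᵐ[volume] 0 := by
      rw [hA0, zero_mul, lintegral_eq_zero_iff' hg.1.enorm] at hI
      filter_upwards [hI] with y hy
      simpa using hy
    refine ae_of_all _ fun x _ _ => ?_
    rw [QQ_zero hz]
    simp
  have hAt : A ≠ ⊤ := by
    intro h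
    have h1 : ∫⁻ y, ‖g y‖ₑ < ⊤ := hg.2
    rw [hI, h, ENNReal.top_mul (mul_ne_zero (by norm_num) (DD_ne_zero q))] at h1
    exact lt_irrefl _ h1
  obtain ⟨M, hM⟩ : ∃ M : ℝ → ℝ≥0∞, M = MM volume (fun y => ‖g y‖ₑ) := ⟨_, rfl⟩
  obtain ⟨S1, hS1⟩ : ∃ S1 : Set ℝ, S1 = {x | L * A < ‖QQ g δ x‖ₑ} := ⟨_, rfl⟩
  obtain ⟨S2, hS2⟩ : ∃ S2 : Set ℝ, S2 = {x | L * A < M x} := ⟨_, rfl⟩
  have hm1 : 64 * volume S1 ≤ volume (DD q) := by
    have h := hw δ hδ g hg (L * A)
    rw [← hS1] at h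
    exact cancel hA0 hAt hD0 hDt hL hC1D hI h
  have hm2 : 32 * volume S2 ≤ volume (DD q) := by
    have hmk : MM volume (fun y => ‖g y‖ₑ) = MM volume (fun y => ‖hg.1.mk g y‖ₑ) := by
      refine MM_congr ?_
      filter_upwards [hg.1.ae_eq_mk] with y hy
      rw [← hy]
    have hmk2 : ∫⁻ y, ‖hg.1.mk g y‖ₑ = ∫⁻ y, ‖g y‖ₑ := by
      refine lintegral_congr_ae ?_
      filter_upwards [hg.1.ae_eq_mk] with y hy
      rw [← hy]
    have h := hweak volume (fun a b => measure_Ioo_lt_top) (fun y => ‖hg.1.mk g y‖ₑ)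
      hg.1.stronglyMeasurable_mk.enorm (L * A)
    rw [← hmk, ← hM, ← hS2, hmk2] at h
    have h2 : (L * A) * (volume S2 / 2) ≤ 1 * ∫⁻ y, ‖g y‖ₑ := by
      rw [one_mul, ← mul_div_assoc]
      refine ENNReal.div_le_of_le_mul ?_
      rw [mul_comm (∫⁻ y, ‖g y‖ₑ)]
      exact h
    have h3 := cancel hA0 hAt hD0 hDt hL h1D hI h2
    have h4 : 64 * (volume S2 / 2) = 32 * volume S2 := by
      rw [ENNReal.div_eq_inv_mul, ← mul_assoc]
      congr 1
      rw [show (64 : ℝ≥0∞) = 32 * 2 by norm_num, mul_assoc, ENNReal.mul_inv_cancel (by norm_num) (by norm_num), mul_one]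
    rw [h4] at h3
    exact h3
  obtain ⟨E, hE⟩ : ∃ E : Set ℝ, E = toMeasurable volume (S1 ∪ S2) ∩ DD q := ⟨_, rfl⟩
  have hEm : MeasurableSet E := by
    rw [hE]; exact (measurableSet_toMeasurable _ _).inter measurableSet_Ico
  have hEs : 16 * volume E ≤ volume (DD q) := by
    have h1 : volume E ≤ volume S1 + volume S2 := by
      rw [hE]
      refine (measure_mono inter_subset_left).trans ?_
      rw [measure_toMeasurable]
      exact measure_union_le _ _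
    have h5 : 2 * (16 * volume E) ≤ 2 * volume (DD q) := by
      calc 2 * (16 * volume E) = 32 * volume E := by ring
        _ ≤ 32 * (volume S1 + volume S2) := by gcongr
        _ = 32 * volume S1 + 32 * volume S2 := by ring
        _ ≤ 64 * volume S1 + 32 * volume S2 := by gcongr; norm_num
        _ ≤ volume (DD q) + volume (DD q) := by gcongr
        _ = 2 * volume (DD q) := by ring
    exact (ENNReal.mul_le_mul_iff_right (by norm_num) (by norm_num)).1 h5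
  have hout : ∀ x ∈ DD q, x ∉ E → ‖QQ g δ x‖ₑ ≤ L * A ∧ M x ≤ L * A := by
    intro x hx hxE
    have h1 : x ∉ S1 ∪ S2 := fun h => hxE (by rw [hE]; exact ⟨subset_toMeasurable _ _ h, hx⟩)
    constructor
    · by_contra h
      exact h1 (Or.inl (by rw [hS1]; exact not_le.1 h))
    · by_contra h
      exact h1 (Or.inr (by rw [hS2]; exact not_le.1 h))
  obtain ⟨F, hF1, hF2, hF3, hF4, hF5⟩ := hstop q E hEm (by rw [hE]; exact inter_subset_right) hEs
  refine ⟨F, fun r hr => (hF1 r hr).1, hF2, hF3, ?_, ?_⟩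
  · filter_upwards [hF5] with x hx hxq hxF
    have hxE : x ∉ E := fun h => by
      obtain ⟨r, hr, hxr⟩ := hx h
      exact hxF r hr hxr
    refine (hout x hxq hxE).1.trans ?_
    gcongr
    exact le_self_add
  · intro r hr
    refine ae_of_all _ fun x hx => ?_
    obtain ⟨hrq, hr3⟩ := hF1 r hr
    -- the local part
    have hgr : ∀ y ∈ D3 r, g y = f y := by
      intro y hy
      rw [hgdef]; exact indicator_of_mem (hr3 hy) f
    obtain ⟨h, hh⟩ : ∃ h : ℝ → ℂ, h = fun y => (D3 r)ᶜ.indicator g y := ⟨_, rfl⟩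
    have hhint : Integrable h := by rw [hh]; exact hg.indicator measurableSet_Ico.compl
    have hsum : g = fun y => lo f r y + h y := by
      funext y
      rw [hh]
      by_cases hy : y ∈ D3 r
      · have h1 : lo f r y = f y := indicator_of_mem hy f
        have h2 : (D3 r)ᶜ.indicator g y = 0 := indicator_of_notMem (by simpa using hy) g
        simp only [h1, h2, hgr y hy, add_zero]
      · have h1 : lo f r y = 0 := indicator_of_notMem hy f
        have h2 : (D3 r)ᶜ.indicator g y = g y := indicator_of_mem (by simpa using hy) g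
        simp only [h1, h2, zero_add]
    have hdec : ∀ z, QQ g δ z = QQ (lo f r) δ z + QQ h δ z := by
      intro z
      conv_lhs => rw [hsum]
      exact QQ_add (int_lo hf r) hhint δ hδ z
    -- the average over the small interval
    obtain ⟨x1, hx1, hx1E, -⟩ := exists_pt (T := ∅) (hF4 r hr) (by simp)
    have hMx1 := (hout x1 (hrq hx1) hx1E).2
    have hIr : ∫⁻ y, ‖lo f r y‖ₑ ≤ (L * A) * (3 * volume (DD r)) := by
      have h1 := (le_MM (f := fun y => ‖g y‖ₑ) (mem_D3 hx1).1 (mem_D3 hx1).2)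
      rw [← hM] at h1
      have h2 := h1.trans hMx1
      have h3 : volume (Ioo (((r.2 : ℝ) - 1) * 2 ^ r.1) (((r.2 : ℝ) + 2) * 2 ^ r.1)) = 3 * volume (DD r) := by
        rw [← vol_D3]
        exact measure_congr Ioo_ae_eq_Ico
      rw [h3] at h2
      have h4 : ∫⁻ y in Ioo (((r.2 : ℝ) - 1) * 2 ^ r.1) (((r.2 : ℝ) + 2) * 2 ^ r.1), ‖g y‖ₑ = ∫⁻ y, ‖lo f r y‖ₑ := by
        rw [lint_lo, setLIntegral_congr Ioo_ae_eq_Ico]
        refine setLIntegral_congr_fun measurableSet_Ico fun y hy => ?_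
        change ‖g y‖ₑ = ‖f y‖ₑ
        rw [hgr y hy]
      rw [h4] at h2
      exact (ENNReal.div_le_iff (mul_ne_zero (by norm_num) (DD_ne_zero r))
        (ENNReal.mul_ne_top (by norm_num) (DD_ne_top r))).1 h2
    obtain ⟨T, hT⟩ : ∃ T : Set ℝ, T = {z | 12 * D * L * A < ‖QQ (lo f r) δ z‖ₑ} := ⟨_, rfl⟩
    have hTm : 4 * volume T ≤ volume (DD r) := by
      have h1 := hw δ hδ (lo f r) (int_lo hf r) (12 * D * L * A)
      rw [← hT] at h1
      exact cancel2 hA0 hAt hD0 hDt hL0 hLt hC1D hIr h1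
    obtain ⟨x2, hx2, hx2E, hx2T⟩ := exists_pt (hF4 r hr) hTm
    obtain ⟨hQ2, hM2⟩ := hout x2 (hrq hx2) hx2E
    have hloc : ‖QQ (lo f r) δ x2‖ₑ ≤ 12 * D * L * A := by
      by_contra h1
      exact hx2T (by rw [hT]; exact not_le.1 h1)
    have hh2 : ‖QQ h δ x2‖ₑ ≤ L * A + 12 * D * L * A := by
      have h1 : QQ h δ x2 = QQ g δ x2 - QQ (lo f r) δ x2 := by rw [hdec x2]; ring
      rw [h1]
      exact enorm_sub_le.trans (add_le_add hQ2 hloc)
    have hker := hk δ hδ h hhint r (fun y hy => by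
      rw [hh]; exact indicator_of_notMem (by simpa using hy) g) x hx x2 hx2
    have hMh : MM volume (fun y => ‖h y‖ₑ) x2 ≤ L * A := by
      refine (MM_mono (fun y => ?_) x2).trans (le_of_eq_of_le (congrFun hM.symm x2) hM2)
      rw [hh]
      change ‖(D3 r)ᶜ.indicator g y‖ₑ ≤ ‖g y‖ₑ
      rw [enorm_indicator_eq_indicator_enorm]
      exact indicator_le_self _ _ _
    have hhx : ‖QQ h δ x‖ₑ ≤ (L + 12 * D * L + C2 * L) * A := by
      have h1 : QQ h δ x = QQ h δ x2 + (QQ h δ x - QQ h δ x2) := by ring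
      rw [h1]
      calc ‖QQ h δ x2 + (QQ h δ x - QQ h δ x2)‖ₑ ≤ ‖QQ h δ x2‖ₑ + ‖QQ h δ x - QQ h δ x2‖ₑ := enorm_add_le _ _
        _ ≤ (L * A + 12 * D * L * A) + C2 * (L * A) := by
          refine add_le_add hh2 (hker.trans ?_)
          gcongr
        _ = (L + 12 * D * L + C2 * L) * A := by ring
    rw [hdec x]
    refine (enorm_add_le _ _).trans ?_
    gcongr
    refine hhx.trans ?_
    exact mul_le_mul_left le_add_self A

end Pool.Agent.U402.HW.STEPQ
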